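import Pool.Agent.H48R3.CP2.Limit
import Pool.Agent.H48R3.CP.Upper

set_option autoImplicit false

namespace Pool.Agent.Results.MP_b7645d_gt.ConstantNearHalf

open MeasureTheory

/-- For every volume `t` in `[12/25, 13/25]` the relative isoperimetric profile of the open unit
cube takes the same value `1` in every dimension `d ≥ 1`. -/
theorem result :
    ∀ I : ℕ → ℝ → ENNReal,
      (∀ (d : ℕ) (t : ℝ), I d t =
        ⨅ (E : Set (Fin d → ℝ)) (_ : MeasurableSet E)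
          (_ : E ⊆ {x : Fin d → ℝ | ∀ i, x i ∈ Set.Ioo (0:ℝ) 1})
          (_ : MeasureTheory.volume E = ENNReal.ofReal t),
          ⨆ (φ : (Fin d → ℝ) → (Fin d → ℝ)) (_ : ContDiff ℝ 1 φ)
            (_ : HasCompactSupport φ)
            (_ : tsupport φ ⊆ {x : Fin d → ℝ | ∀ i, x i ∈ Set.Ioo (0:ℝ) 1})
            (_ : ∀ x, ∑ i, (φ x i) ^ 2 ≤ 1),
            ENNReal.ofReal (∫ x in E, ∑ i, fderiv ℝ φ x (Pi.single i 1) i)) →
      ∀ t ∈ Set.Icc (12 / 25 : ℝ) (13 / 25), ∀ d : ℕ, 1 ≤ d → I d t = 1 := by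
  intro I hI t ht d hd
  have hU : {x : Fin d → ℝ | ∀ i, x i ∈ Set.Ioo (0:ℝ) 1} = H48R3.CP.U d := rfl
  have hdiv : ∀ φ : (Fin d → ℝ) → (Fin d → ℝ), ContDiff ℝ 1 φ → ∀ x,
      ∑ i, fderiv ℝ φ x (Pi.single i 1) i =
      ∑ i, fderiv ℝ (fun y => φ y i) x (Pi.single i (1 : ℝ) : Fin d → ℝ) := by
    intro φ hφ x
    refine Finset.sum_congr rfl fun i _ => ?_
    have h1 : HasFDerivAt φ (fderiv ℝ φ x) x := (hφ.differentiable (by norm_num) x).hasFDerivAt
    have h2 := (hasFDerivAt_pi'.1 h1) i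
    rw [h2.fderiv]
    simp
  rw [hI]
  apply le_antisymm
  · obtain ⟨n, rfl⟩ : ∃ n, d = n + 1 := ⟨d - 1, by omega⟩
    obtain ⟨E, h1, h2, h3, h4⟩ := H48R3.CP.upper n t (by linarith [ht.1]) (by linarith [ht.2])
    refine iInf_le_of_le E (iInf_le_of_le h1 (iInf_le_of_le h2 (iInf_le_of_le h3 ?_)))
    refine iSup_le fun φ => iSup_le fun hφ1 => iSup_le fun hφ2 => iSup_le fun hφ3 =>
      iSup_le fun hφ4 => ?_
    have h5 := h4 φ hφ1 hφ2 hφ3 hφ4
    simp only [hdiv φ hφ1]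
    exact ENNReal.ofReal_le_one.2 h5
  · refine le_iInf fun E => le_iInf fun hE => le_iInf fun hEU => le_iInf fun hvol => ?_
    refine le_of_forall_lt fun c hc => ?_
    have hc' : c ≠ ⊤ := (hc.trans ENNReal.one_lt_top).ne
    have hr : c.toReal < 1 := by
      have := (ENNReal.toReal_lt_toReal hc' ENNReal.one_ne_top).2 hc
      simpa using this
    obtain ⟨φ, h1, h2, h3, h4, h5⟩ := H48R3.CP2.lower E hE hEU t hvol
      (by show (12 / 25 : ℝ) ≤ t; exact ht.1)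
      (by show t ≤ 1 - (12 / 25 : ℝ); linarith [ht.2]) c.toReal hr
    have h6 : c < ENNReal.ofReal (∫ x in E, ∑ i, fderiv ℝ φ x (Pi.single i 1) i) := by
      simp only [hdiv φ h1]
      rw [ENNReal.lt_ofReal_iff_toReal_lt hc']
      exact h5
    refine h6.trans_le ?_
    exact le_iSup_of_le φ (le_iSup_of_le h1 (le_iSup_of_le h2 (le_iSup_of_le h3
      (le_iSup_of_le h4 le_rfl))))

end Pool.Agent.Results.MP_b7645d_gt.ConstantNearHalf
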